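import Mathlib

/-!
# Accessible graphs have no induced cycle of length at least six
-/

set_option autoImplicit false

namespace Pool.Agent.Results.MP_12e671_al.NoLongInducedCycle

open SimpleGraph

universe u

/-! ## Definitions used in the statement -/

/-- The number of connected components of `G ∖ T`. -/
noncomputable def numComp {V : Type u} (G : SimpleGraph V) (T : Finset V) : ℕ :=
  Nat.card (G.induce ((T : Set V)ᶜ)).ConnectedComponent

/-- `T` is a cut set of `G`: `c(T ∖ {i}) < c(T)` for every `i ∈ T`. -/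
def IsCutSet {V : Type u} [DecidableEq V] (G : SimpleGraph V) (T : Finset V) : Prop :=
  ∀ i ∈ T, numComp G (T.erase i) < numComp G T

/-- The combinatorial form of unmixedness of the binomial edge ideal:
`c(T) - |T| = c(∅)` for every cut set `T`. -/
def IsUnmixed {V : Type u} [DecidableEq V] (G : SimpleGraph V) : Prop :=
  ∀ T : Finset V, IsCutSet G T → numComp G T = T.card + numComp G ∅

/-- `G` is accessible: it is unmixed, and every nonempty cut set `T` contains some `t` such that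
`T ∖ {t}` is a cut set. -/
def IsAccessible {V : Type u} [DecidableEq V] (G : SimpleGraph V) : Prop :=
  IsUnmixed G ∧ ∀ T : Finset V, IsCutSet G T → T.Nonempty → ∃ t ∈ T, IsCutSet G (T.erase t)

/-! ## Connectivity inside a set of vertices -/

section Conn

variable {V : Type u}

/-- `a` and `b` lie in `X` and are joined by a walk inside `X`. -/
def Conn (G : SimpleGraph V) (X : Set V) (a b : V) : Prop :=
  ∃ (ha : a ∈ X) (hb : b ∈ X), (G.induce X).Reachable ⟨a, ha⟩ ⟨b, hb⟩

variable {G : SimpleGraph V} {X Y : Set V} {a b c : V}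

lemma Conn.refl (ha : a ∈ X) : Conn G X a a := ⟨ha, ha, Reachable.refl _⟩

lemma Conn.symm (h : Conn G X a b) : Conn G X b a := by
  obtain ⟨ha, hb, h⟩ := h
  exact ⟨hb, ha, h.symm⟩

lemma Conn.trans (h : Conn G X a b) (h' : Conn G X b c) : Conn G X a c := by
  obtain ⟨ha, hb, h⟩ := h
  obtain ⟨_, hc, h'⟩ := h'
  exact ⟨ha, hc, h.trans h'⟩

lemma Conn.left (h : Conn G X a b) : a ∈ X := h.1

lemma Conn.right (h : Conn G X a b) : b ∈ X := h.2.1

lemma Conn.adj (ha : a ∈ X) (hb : b ∈ X) (h : G.Adj a b) : Conn G X a b :=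
  ⟨ha, hb, SimpleGraph.Adj.reachable (by simpa using h)⟩

lemma Conn.closed {D : Set V} (h : Conn G X a b) (ha : a ∈ D)
    (hD : ∀ u v, u ∈ D → u ∈ X → v ∈ X → G.Adj u v → v ∈ D) : b ∈ D := by
  obtain ⟨ha', hb, h⟩ := h
  obtain ⟨p⟩ := h
  have key : ∀ (x y : X) (_ : (G.induce X).Walk x y), (x : V) ∈ D → (y : V) ∈ D := by
    intro x y p
    induction p with
    | nil => exact id
    | cons hadj p ih =>
      intro hx
      exact ih (hD _ _ hx (Subtype.prop _) (Subtype.prop _) (by simpa using hadj))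
  exact key _ _ p ha

lemma Conn.mono (hXY : X ⊆ Y) (h : Conn G X a b) : Conn G Y a b := by
  refine h.closed (D := {v | Conn G Y a v}) (Conn.refl (hXY h.left)) ?_
  intro u v hu huX hvX huv
  exact Conn.trans hu (Conn.adj (hXY huX) (hXY hvX) huv)

/-- The number of components of the induced subgraph on `X`. -/
noncomputable def kap (G : SimpleGraph V) (X : Set V) : ℕ :=
  Nat.card (G.induce X).ConnectedComponent

/-- The class of a vertex. -/
def cls (G : SimpleGraph V) (X : Set V) (a : V) (ha : a ∈ X) :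
    (G.induce X).ConnectedComponent := (G.induce X).connectedComponentMk ⟨a, ha⟩

lemma cls_eq_iff (ha : a ∈ X) (hb : b ∈ X) : cls G X a ha = cls G X b hb ↔ Conn G X a b := by
  unfold cls
  rw [ConnectedComponent.eq]
  exact ⟨fun h => ⟨ha, hb, h⟩, fun h => h.2.2⟩

lemma cls_surj (x : (G.induce X).ConnectedComponent) : ∃ a, ∃ ha : a ∈ X, cls G X a ha = x := by
  induction x using ConnectedComponent.ind with
  | h v => exact ⟨v.1, v.2, rfl⟩

/-- The map on components given by an inclusion of vertex sets. -/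
def incl (G : SimpleGraph V) (h : X ⊆ Y) :
    (G.induce X).ConnectedComponent → (G.induce Y).ConnectedComponent :=
  ConnectedComponent.map (G.induceHomOfLE h).toHom

lemma incl_cls (h : X ⊆ Y) (ha : a ∈ X) : incl G h (cls G X a ha) = cls G Y a (h ha) := rfl

variable [Finite V]

lemma kap_union (hd : Disjoint X Y) (hXY : ∀ x ∈ X, ∀ y ∈ Y, ¬ G.Adj x y) :
    kap G (X ∪ Y) = kap G X + kap G Y := by
  have hX : X ⊆ X ∪ Y := Set.subset_union_left
  have hY : Y ⊆ X ∪ Y := Set.subset_union_right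
  let f : (G.induce X).ConnectedComponent ⊕ (G.induce Y).ConnectedComponent →
      (G.induce (X ∪ Y)).ConnectedComponent := Sum.elim (incl G hX) (incl G hY)
  have hf : Function.Bijective f := by
    constructor
    · rintro (x | x) (y | y) hxy
      · obtain ⟨a, ha, rfl⟩ := cls_surj x
        obtain ⟨b, hb, rfl⟩ := cls_surj y
        simp only [f, Sum.elim_inl, incl_cls, cls_eq_iff] at hxy
        congr 1
        rw [cls_eq_iff]
        refine hxy.closed (D := {v | Conn G X a v}) (Conn.refl ha) ?_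
        intro u v hu _ hvX huv
        have huX : u ∈ X := Conn.right hu
        rcases hvX with hv | hv
        · exact Conn.trans hu (Conn.adj huX hv huv)
        · exact absurd huv (hXY u huX v hv)
      · obtain ⟨a, ha, rfl⟩ := cls_surj x
        obtain ⟨b, hb, rfl⟩ := cls_surj y
        simp only [f, Sum.elim_inl, Sum.elim_inr, incl_cls, cls_eq_iff] at hxy
        exfalso
        have : b ∈ X := by
          refine hxy.closed (D := X) ha ?_
          intro u v hu _ hvX huv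
          rcases hvX with hv | hv
          · exact hv
          · exact absurd huv (hXY u hu v hv)
        exact Set.disjoint_left.1 hd this hb
      · obtain ⟨a, ha, rfl⟩ := cls_surj x
        obtain ⟨b, hb, rfl⟩ := cls_surj y
        simp only [f, Sum.elim_inl, Sum.elim_inr, incl_cls, cls_eq_iff] at hxy
        exfalso
        have : b ∈ Y := by
          refine hxy.closed (D := Y) ha ?_
          intro u v hu _ hvX huv
          rcases hvX with hv | hv
          · exact absurd huv.symm (hXY v hv u hu)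
          · exact hv
        exact Set.disjoint_left.1 hd hb this
      · obtain ⟨a, ha, rfl⟩ := cls_surj x
        obtain ⟨b, hb, rfl⟩ := cls_surj y
        simp only [f, Sum.elim_inr, incl_cls, cls_eq_iff] at hxy
        congr 1
        rw [cls_eq_iff]
        refine hxy.closed (D := {v | Conn G Y a v}) (Conn.refl ha) ?_
        intro u v hu _ hvX huv
        have huY : u ∈ Y := Conn.right hu
        rcases hvX with hv | hv
        · exact absurd huv.symm (hXY v hv u huY)
        · exact Conn.trans hu (Conn.adj huY hv huv)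
    · intro z
      obtain ⟨a, ha, rfl⟩ := cls_surj z
      rcases ha with ha | ha
      · exact ⟨Sum.inl (cls G X a ha), rfl⟩
      · exact ⟨Sum.inr (cls G Y a ha), rfl⟩
  have h1 := Nat.card_congr (Equiv.ofBijective f hf)
  rw [Nat.card_sum] at h1
  exact h1.symm

lemma kap_pos (ha : a ∈ X) : 1 ≤ kap G X := by
  have : Nonempty (G.induce X).ConnectedComponent := ⟨cls G X a ha⟩
  exact Nat.card_pos

lemma conn_of_kap_le_one (h : kap G X ≤ 1) (ha : a ∈ X) (hb : b ∈ X) : Conn G X a b := by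
  have := Finite.card_le_one_iff_subsingleton.1 h
  rw [← cls_eq_iff ha hb]
  exact Subsingleton.elim _ _

lemma kap_eq_one (ha : a ∈ X) (h : ∀ b ∈ X, Conn G X a b) : kap G X = 1 := by
  apply le_antisymm _ (kap_pos ha)
  refine Finite.card_le_one_iff_subsingleton.2 ⟨?_⟩
  intro x y
  obtain ⟨b, hb, rfl⟩ := cls_surj x
  obtain ⟨c, hc, rfl⟩ := cls_surj y
  rw [cls_eq_iff]
  exact (h b hb).symm.trans (h c hc)

lemma three_le_kap (ha : a ∈ X) (hb : b ∈ X) (hc : c ∈ X) (hab : ¬ Conn G X a b)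
    (hac : ¬ Conn G X a c) (hbc : ¬ Conn G X b c) : 3 ≤ kap G X := by
  classical
  let f : Fin 3 → (G.induce X).ConnectedComponent := ![cls G X a ha, cls G X b hb, cls G X c hc]
  have hf : Function.Injective f := by
    intro i j hij
    fin_cases i <;> fin_cases j <;>
      simp only [f, Fin.zero_eta, Fin.mk_one, Fin.reduceFinMk, Matrix.cons_val_zero,
        Matrix.cons_val_one, Matrix.cons_val, cls_eq_iff] at hij ⊢
    · exact absurd hij hab
    · exact absurd hij hac
    · exact absurd hij.symm hab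
    · exact absurd hij hbc
    · exact absurd hij.symm hac
    · exact absurd hij.symm hbc
  have h3 := Nat.card_le_card_of_injective f hf
  rw [Nat.card_fin] at h3
  exact h3

lemma kap_insert_lt {s x y : V} (hs : s ∉ X) (hx : x ∈ X) (hy : y ∈ X) (hsx : G.Adj s x)
    (hsy : G.Adj s y) (hxy : ¬ Conn G X x y) : kap G (insert s X) < kap G X := by
  classical
  have hsub : X ⊆ insert s X := Set.subset_insert s X
  have hsurj : Function.Surjective (incl G hsub) := by
    intro z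
    obtain ⟨a, ha, rfl⟩ := cls_surj z
    rcases ha with ha' | ha'
    · subst ha'
      exact ⟨cls G X x hx, (cls_eq_iff _ _).2
        (Conn.adj (Set.mem_insert a X) (Set.mem_insert_of_mem a hx) hsx).symm⟩
    · exact ⟨cls G X a ha', rfl⟩
  have hninj : ¬ Function.Injective (incl G hsub) := by
    intro hinj
    apply hxy
    rw [← cls_eq_iff hx hy]
    apply hinj
    exact (cls_eq_iff _ _).2 ((Conn.adj (Set.mem_insert s X) (Set.mem_insert_of_mem s hx) hsx).symm.trans
      (Conn.adj (Set.mem_insert s X) (Set.mem_insert_of_mem s hy) hsy))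
  have := Fintype.ofFinite (G.induce X).ConnectedComponent
  have := Fintype.ofFinite (G.induce (insert s X)).ConnectedComponent
  unfold kap
  rw [Nat.card_eq_fintype_card, Nat.card_eq_fintype_card]
  exact Fintype.card_lt_of_surjective_not_injective _ hsurj hninj

lemma le_kap_insert {s : V} (hsX : s ∉ X)
    (hs : ∀ x ∈ X, ∀ y ∈ X, G.Adj s x → G.Adj s y → x ≠ y → G.Adj x y) :
    kap G X ≤ kap G (insert s X) := by
  have hsub : X ⊆ insert s X := Set.subset_insert s X
  refine Nat.card_le_card_of_injective (incl G hsub) ?_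
  intro p q hpq
  obtain ⟨x, hx, rfl⟩ := cls_surj p
  obtain ⟨y, hy, rfl⟩ := cls_surj q
  have hpq' : Conn G (insert s X) x y := (cls_eq_iff _ _).1 hpq
  rw [cls_eq_iff]
  have key : y ∈ {u | (u ∈ X → Conn G X x u) ∧ (u = s → ∃ w, G.Adj s w ∧ Conn G X x w)} := by
    refine hpq'.closed ⟨fun _ => Conn.refl hx, fun h => absurd (h ▸ hx) hsX⟩ ?_
    rintro u v ⟨hu1, hu2⟩ huX hvX huv
    rcases huX with rfl | huX
    · obtain ⟨w, hw, hxw⟩ := hu2 rfl
      refine ⟨fun hv => ?_, fun hv => absurd huv (by rw [hv]; exact G.irrefl)⟩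
      by_cases hwv : w = v
      · exact hwv ▸ hxw
      · exact hxw.trans (Conn.adj hxw.right hv (hs w hxw.right v hv hw huv hwv))
    · rcases hvX with rfl | hvX
      · exact ⟨fun hv => absurd hv hsX, fun _ => ⟨u, huv.symm, hu1 huX⟩⟩
      · exact ⟨fun _ => (hu1 huX).trans (Conn.adj huX hvX huv), fun hv => absurd (hv ▸ hvX) hsX⟩
  exact key.1 hy

lemma kap_split (ha : a ∈ X) :
    kap G X = 1 + kap G (X \ {v | Conn G X a v}) := by
  have h1 : X = {v | Conn G X a v} ∪ (X \ {v | Conn G X a v}) := by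
    ext v
    constructor
    · intro hv
      by_cases h : Conn G X a v
      · exact Or.inl h
      · exact Or.inr ⟨hv, h⟩
    · rintro (h | h)
      · exact Conn.right h
      · exact h.1
  have h2 : kap G X = kap G {v | Conn G X a v} + kap G (X \ {v | Conn G X a v}) := by
    conv_lhs => rw [h1]
    apply kap_union
    · exact Set.disjoint_sdiff_right
    · intro x hx y hy hxy
      exact hy.2 (Conn.trans hx (Conn.adj (Conn.right hx) hy.1 hxy))
  have h3 : kap G {v | Conn G X a v} = 1 := by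
    apply kap_eq_one (a := a) (Conn.refl ha)
    intro b hb
    have : b ∈ {v | Conn G {v | Conn G X a v} a v} := by
      refine Conn.closed hb (Conn.refl (Conn.refl ha)) ?_
      intro u v hu huX hvX huv
      have hu1 : Conn G {v | Conn G X a v} a u := hu
      have hu2 := hu1.right
      have hu' : Conn G X a u := hu2
      exact Conn.trans hu (Conn.adj hu' (hu'.trans (Conn.adj huX hvX huv)) huv)
    exact this
  omega

end Conn

/-! ## Unmixed graphs -/

section Unmixed

variable {V : Type u} [Fintype V] [DecidableEq V] {G : SimpleGraph V}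

/-- `c(T) = |T| + c(∅)`. -/
def Tight (G : SimpleGraph V) (T : Finset V) : Prop := numComp G T = T.card + numComp G ∅

lemma numComp_eq (T : Finset V) : numComp G T = kap G ((T : Set V)ᶜ) := rfl

lemma numComp_le (hG : IsUnmixed G) : ∀ (n : ℕ) (T : Finset V), T.card = n →
    numComp G T ≤ T.card + numComp G ∅ := by
  intro n
  induction n with
  | zero =>
    intro T hT
    rw [Finset.card_eq_zero] at hT
    subst hT
    omega
  | succ n ih =>
    intro T hT
    by_cases hc : IsCutSet G T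
    · exact (hG T hc).le
    · unfold IsCutSet at hc
      push Not at hc
      obtain ⟨i, hi, hle⟩ := hc
      have h1 := Finset.card_erase_of_mem hi
      have h2 := ih (T.erase i) (by omega)
      omega

/-- The uncrossing lemma. -/
lemma uncross (hG : IsUnmixed G) {T1 T2 : Finset V} (h1 : Tight G T1) (h2 : Tight G T2) {a : V}
    (ha1 : a ∉ T1) (ha2 : a ∉ T2)
    (hsub : ∀ v ∈ T1, v ∈ T2 ∨ Conn G ((T2 : Set V)ᶜ) a v) :
    (∀ v, Conn G ((T1 : Set V)ᶜ) a v → Conn G ((T2 : Set V)ᶜ) a v →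
      Conn G {w | Conn G ((T1 : Set V)ᶜ) a w ∧ Conn G ((T2 : Set V)ᶜ) a w} a v) ∧
    ∀ T : Finset V, (∀ v, v ∈ T ↔ v ∈ T1 ∨ (v ∈ T2 ∧ Conn G ((T1 : Set V)ᶜ) a v)) →
      Tight G T := by
  classical
  have haX1 : a ∈ ((T1 : Set V)ᶜ) := by simpa using ha1
  have haX2 : a ∈ ((T2 : Set V)ᶜ) := by simpa using ha2
  set M1 : Set V := {v | Conn G ((T1 : Set V)ᶜ) a v} with hM1
  set M2 : Set V := {v | Conn G ((T2 : Set V)ᶜ) a v} with hM2
  have haM1 : a ∈ M1 := Conn.refl haX1
  have haM2 : a ∈ M2 := Conn.refl haX2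
  have m1 : ∀ v, v ∈ M1 → v ∉ T1 := fun v hv => by
    have := Conn.right (show Conn G ((T1 : Set V)ᶜ) a v from hv)
    simpa using this
  have m2 : ∀ v, v ∈ M2 → v ∉ T2 := fun v hv => by
    have := Conn.right (show Conn G ((T2 : Set V)ᶜ) a v from hv)
    simpa using this
  have e1 : ∀ u v, u ∈ M1 → v ∉ T1 → G.Adj u v → v ∈ M1 := by
    intro u v hu hv huv
    exact Conn.trans hu (Conn.adj (Conn.right hu) (by simpa using hv) huv)
  have e2 : ∀ u v, u ∈ M2 → v ∉ T2 → G.Adj u v → v ∈ M2 := by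
    intro u v hu hv huv
    exact Conn.trans hu (Conn.adj (Conn.right hu) (by simpa using hv) huv)
  have s : ∀ v, v ∈ T1 → v ∈ T2 ∨ v ∈ M2 := hsub
  have k1 : kap G ((T1 : Set V)ᶜ) = 1 + kap G (((T1 : Set V)ᶜ) \ M1) := kap_split haX1
  have k2 : kap G ((T2 : Set V)ᶜ) = 1 + kap G (((T2 : Set V)ᶜ) \ M2) := kap_split haX2
  have h1' : kap G ((T1 : Set V)ᶜ) = T1.card + numComp G ∅ := h1
  have h2' : kap G ((T2 : Set V)ᶜ) = T2.card + numComp G ∅ := h2
  -- the two new sets
  have card1 : (T1 ∪ T2.filter (fun v => v ∈ M1)).card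
      = T1.card + (T2.filter (fun v => v ∈ M1)).card := by
    apply Finset.card_union_of_disjoint
    rw [Finset.disjoint_left]
    intro v hv hv'
    exact m1 v (Finset.mem_filter.1 hv').2 hv
  have card2 := Finset.card_filter_add_card_filter_not (s := T2) (fun v => v ∈ M1)
  have n1 := numComp_le hG _ (T1 ∪ T2.filter (fun v => v ∈ M1)) rfl
  have n2 := numComp_le hG _ (T2.filter (fun v => ¬ v ∈ M1)) rfl
  rw [numComp_eq] at n1 n2
  have q1 : kap G (((T1 ∪ T2.filter (fun v => v ∈ M1) : Finset V) : Set V)ᶜ)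
      = kap G (M1 \ T2) + kap G (((T1 : Set V)ᶜ) \ M1) := by
    rw [← kap_union]
    · congr 1
      ext v
      have := m1 v
      simp only [Set.mem_compl_iff, Finset.mem_coe, Finset.mem_union, Finset.mem_filter,
        Set.mem_union, Set.mem_sdiff]
      tauto
    · rw [Set.disjoint_left]
      intro v hv hv'
      exact hv'.2 hv.1
    · intro x hx y hy hxy
      exact hy.2 (e1 x y hx.1 (by simpa using hy.1) hxy)
  have q2 : kap G (M1 \ T2) = kap G (M1 ∩ M2) + kap G (M1 ∩ (((T2 : Set V)ᶜ) \ M2)) := by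
    rw [← kap_union]
    · congr 1
      ext v
      have := m2 v
      simp only [Set.mem_compl_iff, Finset.mem_coe, Set.mem_inter_iff,
        Set.mem_union, Set.mem_sdiff]
      tauto
    · rw [Set.disjoint_left]
      intro v hv hv'
      exact hv'.2.2 hv.2
    · intro x hx y hy hxy
      exact hy.2.2 (e2 x y hx.2 (by simpa using hy.2.1) hxy)
  have q3 : kap G (((T2 : Set V)ᶜ) \ M2) = kap G (M1 ∩ (((T2 : Set V)ᶜ) \ M2))
      + kap G ((((T1 : Set V)ᶜ) \ M1) ∩ (((T2 : Set V)ᶜ) \ M2)) := by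
    rw [← kap_union]
    · congr 1
      ext v
      have := m2 v
      have := m1 v
      have := s v
      simp only [Set.mem_compl_iff, Finset.mem_coe, Set.mem_inter_iff,
        Set.mem_union, Set.mem_sdiff]
      tauto
    · rw [Set.disjoint_left]
      intro v hv hv'
      exact hv'.1.2 hv.1
    · intro x hx y hy hxy
      exact hy.1.2 (e1 x y hx.1 (by simpa using hy.1.1) hxy)
  have q4 : kap G (((T2.filter (fun v => ¬ v ∈ M1) : Finset V) : Set V)ᶜ)
      = kap G (M1 ∪ M2) + kap G ((((T1 : Set V)ᶜ) \ M1) ∩ (((T2 : Set V)ᶜ) \ M2)) := by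
    rw [← kap_union]
    · congr 1
      ext v
      have := m2 v
      have := m1 v
      have := s v
      simp only [Set.mem_compl_iff, Finset.mem_coe, Finset.mem_filter, Set.mem_inter_iff,
        Set.mem_union, Set.mem_sdiff]
      tauto
    · rw [Set.disjoint_left]
      intro v hv hv'
      rcases hv with hv | hv
      · exact hv'.1.2 hv
      · exact hv'.2.2 hv
    · intro x hx y hy hxy
      rcases hx with hx | hx
      · exact hy.1.2 (e1 x y hx (by simpa using hy.1.1) hxy)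
      · exact hy.2.2 (e2 x y hx (by simpa using hy.2.1) hxy)
  have q5 : 1 ≤ kap G (M1 ∪ M2) := kap_pos (a := a) (Or.inl haM1)
  have q6 : 1 ≤ kap G (M1 ∩ M2) := kap_pos (a := a) ⟨haM1, haM2⟩
  constructor
  · intro v hv1 hv2
    have : kap G (M1 ∩ M2) ≤ 1 := by omega
    exact conn_of_kap_le_one this (a := a) (b := v) ⟨haM1, haM2⟩ ⟨hv1, hv2⟩
  · intro T hT
    have hTe : T = T1 ∪ T2.filter (fun v => v ∈ M1) := by
      ext v
      rw [hT v, Finset.mem_union, Finset.mem_filter]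
      rfl
    subst hTe
    unfold Tight
    rw [numComp_eq]
    omega

/-! ### Minimal separators -/

/-- Vertices outside `A` without neighbours in `A`. -/
def far (G : SimpleGraph V) (A : Set V) : Set V := {v | v ∉ A ∧ ∀ x ∈ A, ¬ G.Adj x v}

/-- The component of `b` in the graph induced on `far G A`. -/
def QQ (G : SimpleGraph V) (A : Set V) (b : V) : Set V := {v | Conn G (far G A) b v}

open Classical in
/-- The neighbourhood of `QQ G A b`. -/
noncomputable def SS (G : SimpleGraph V) (A : Set V) (b : V) : Finset V :=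
  Finset.univ.filter (fun s => s ∉ QQ G A b ∧ ∃ q ∈ QQ G A b, G.Adj s q)

lemma mem_SS {A : Set V} {b s : V} :
    s ∈ SS G A b ↔ s ∉ QQ G A b ∧ ∃ q ∈ QQ G A b, G.Adj s q := by
  classical
  unfold SS
  simp

lemma SS_not_mem {A : Set V} {b s : V} (h : s ∈ SS G A b) : s ∉ A := by
  obtain ⟨_, q, hq, hsq⟩ := mem_SS.1 h
  have hq' : Conn G (far G A) b q := hq
  have hq2 := hq'.right
  intro hs
  exact hq2.2 s hs hsq

lemma SS_adj {A : Set V} {b s : V} (h : s ∈ SS G A b) : ∃ x ∈ A, G.Adj x s := by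
  obtain ⟨h1, q, hq, hsq⟩ := mem_SS.1 h
  have hq' : Conn G (far G A) b q := hq
  by_contra hcon
  push Not at hcon
  have hs : s ∈ far G A := ⟨SS_not_mem h, hcon⟩
  exact h1 (hq'.trans (Conn.adj hq'.right hs hsq.symm))

lemma far_not_mem_SS {A : Set V} {b v : V} (hv : v ∈ far G A) : v ∉ SS G A b := by
  intro h
  obtain ⟨x, hx, hxv⟩ := SS_adj h
  exact hv.2 x hx hxv

lemma mem_A_not_mem_SS {A : Set V} {b v : V} (hv : v ∈ A) : v ∉ SS G A b :=
  fun h => SS_not_mem h hv

lemma sep {A : Set V} {b v : V} (hb : b ∈ far G A)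
    (h : Conn G (((SS G A b : Finset V) : Set V)ᶜ) b v) : v ∈ QQ G A b := by
  refine h.closed (D := QQ G A b) (Conn.refl hb) ?_
  intro u w hu _ hw huw
  by_contra hcon
  exact hw (Finset.mem_coe.2 (mem_SS.2 ⟨hcon, u, hu, huw.symm⟩))

lemma sep' {A : Set V} {b v : V} (hb : b ∈ far G A) (hv : v ∈ A) :
    ¬ Conn G (((SS G A b : Finset V) : Set V)ᶜ) b v := by
  intro h
  have h1 : Conn G (far G A) b v := sep hb h
  exact h1.right.1 hv

lemma QQ_conn {A : Set V} {b v : V} (hv : v ∈ QQ G A b) :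
    Conn G (((SS G A b : Finset V) : Set V)ᶜ) b v := by
  have hv' : Conn G (far G A) b v := hv
  refine hv'.mono ?_
  intro w hw hw'
  exact far_not_mem_SS hw (Finset.mem_coe.1 hw')

lemma isCutSet_SS {A : Set V} {b : V} (hb : b ∈ far G A) : IsCutSet G (SS G A b) := by
  intro s hs
  obtain ⟨_, q, hq, hsq⟩ := mem_SS.1 hs
  obtain ⟨x, hx, hxs⟩ := SS_adj hs
  rw [numComp_eq, numComp_eq]
  have e : (((SS G A b).erase s : Finset V) : Set V)ᶜ
      = insert s (((SS G A b : Finset V) : Set V)ᶜ) := by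
    ext v
    simp only [Finset.coe_erase, Set.mem_compl_iff, Set.mem_sdiff, Finset.mem_coe,
      Set.mem_singleton_iff, Set.mem_insert_iff]
    tauto
  rw [e]
  apply kap_insert_lt (x := x) (y := q)
  · intro h
    exact h (Finset.mem_coe.2 hs)
  · intro h
    exact mem_A_not_mem_SS hx (Finset.mem_coe.1 h)
  · exact (QQ_conn hq).right
  · exact hxs.symm
  · exact hsq
  · intro h
    exact sep' hb hx ((QQ_conn hq).trans h.symm)

lemma join {A : Set V} {b t a v : V} (hA : ∀ x ∈ A, ∀ y ∈ A, Conn G A x y)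
    (ht : t ∈ SS G A b) (ha : a ∈ A) (hv : v ∈ QQ G A b) :
    Conn G ((((SS G A b).erase t : Finset V) : Set V)ᶜ) a v := by
  obtain ⟨_, q, hq, htq⟩ := mem_SS.1 ht
  obtain ⟨x, hx, hxt⟩ := SS_adj ht
  have hsub : (((SS G A b : Finset V) : Set V)ᶜ) ⊆
      ((((SS G A b).erase t : Finset V) : Set V)ᶜ) := by
    intro w hw hw'
    exact hw (Finset.mem_coe.2 (Finset.mem_of_mem_erase (Finset.mem_coe.1 hw')))
  have hA' : A ⊆ ((((SS G A b).erase t : Finset V) : Set V)ᶜ) := by
    intro w hw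
    apply hsub
    intro h
    exact mem_A_not_mem_SS hw (Finset.mem_coe.1 h)
  have ht' : t ∈ ((((SS G A b).erase t : Finset V) : Set V)ᶜ) := by
    simp
  have h1 := (hA a ha x hx).mono hA'
  have h2 := (QQ_conn hq).mono hsub
  have h3 := (QQ_conn hv).mono hsub
  exact (h1.trans (Conn.adj (hA' hx) ht' hxt)).trans
    ((Conn.adj ht' h2.right htq).trans (h2.symm.trans h3))

/-- `t` is a pivot for `(A, b)`. -/
def Piv (G : SimpleGraph V) (A : Set V) (b t : V) : Prop :=
  t ∈ SS G A b ∧ Tight G ((SS G A b).erase t)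

lemma exists_piv (hG : IsAccessible G) {A : Set V} {b : V} (hb : b ∈ far G A)
    (hne : (SS G A b).Nonempty) : ∃ t, Piv G A b t := by
  obtain ⟨t, ht, hc⟩ := hG.2 _ (isCutSet_SS hb) hne
  exact ⟨t, ht, hG.1 _ hc⟩

lemma tight_SS (hG : IsAccessible G) {A : Set V} {b : V} (hb : b ∈ far G A) :
    Tight G (SS G A b) := hG.1 _ (isCutSet_SS hb)

lemma sing_conn {a : V} : ∀ x ∈ ({a} : Set V), ∀ y ∈ ({a} : Set V), Conn G ({a} : Set V) x y := by
  intro x hx y hy
  rw [Set.mem_singleton_iff] at hx hy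
  subst hx; subst hy
  exact Conn.refl rfl

lemma mem_far_sing {a b : V} (hne : b ≠ a) (h : ¬ G.Adj a b) : b ∈ far G ({a} : Set V) := by
  refine ⟨by simpa using hne, ?_⟩
  intro x hx
  rw [Set.mem_singleton_iff] at hx
  subst hx
  exact h

lemma SS_adj_sing {a b s : V} (h : s ∈ SS G ({a} : Set V) b) : G.Adj a s := by
  obtain ⟨x, hx, hxs⟩ := SS_adj h
  rw [Set.mem_singleton_iff] at hx
  exact hx ▸ hxs

/-- A pivot lies in no tight set which does not separate `a` and `b`. -/
lemma piv_not_mem (hG : IsAccessible G) {a b t : V} (hb : b ∈ far G ({a} : Set V))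
    (ht : Piv G ({a} : Set V) b t) {T : Finset V} (hT : Tight G T)
    (hab : Conn G ((T : Set V)ᶜ) a b) : t ∉ T := by
  intro htT
  have haS : a ∉ (SS G ({a} : Set V) b) := mem_A_not_mem_SS rfl
  have hj := join (G := G) sing_conn ht.1 (a := a) (v := b) rfl (Conn.refl hb)
  have hU := uncross hG.1 ht.2 hT (a := a) (fun h => haS (Finset.mem_of_mem_erase h))
    (fun h => hab.left (Finset.mem_coe.2 h)) (by
      intro v hv
      by_cases hvT : v ∈ T
      · exact Or.inl hvT
      · refine Or.inr (Conn.adj hab.left (by simpa using hvT) ?_)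
        exact SS_adj_sing (Finset.mem_of_mem_erase hv))
  have h1 := hU.1 b hj hab
  have h2 : Conn G (((SS G ({a} : Set V) b : Finset V) : Set V)ᶜ) a b := by
    refine h1.mono ?_
    rintro w ⟨hw1, hw2⟩ hw
    have hw1' := hw1.right
    have hw2' := hw2.right
    by_cases hwt : w = t
    · subst hwt
      exact hw2' (Finset.mem_coe.2 htT)
    · exact hw1' (Finset.mem_coe.2 (Finset.mem_erase.2 ⟨hwt, Finset.mem_coe.1 hw⟩))
  exact sep' hb rfl h2.symm

/-! ### Induced hexagons -/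

/-- `c0 c1 c2 c3 c4 c5` is an induced six-cycle. -/
structure Hex (G : SimpleGraph V) (c0 c1 c2 c3 c4 c5 : V) : Prop where
  a01 : G.Adj c0 c1
  a12 : G.Adj c1 c2
  a23 : G.Adj c2 c3
  a34 : G.Adj c3 c4
  a45 : G.Adj c4 c5
  a50 : G.Adj c5 c0
  n02 : ¬ G.Adj c0 c2
  n03 : ¬ G.Adj c0 c3
  n04 : ¬ G.Adj c0 c4
  n13 : ¬ G.Adj c1 c3
  n14 : ¬ G.Adj c1 c4
  n15 : ¬ G.Adj c1 c5
  n24 : ¬ G.Adj c2 c4
  n25 : ¬ G.Adj c2 c5
  n35 : ¬ G.Adj c3 c5

variable {c0 c1 c2 c3 c4 c5 : V}

lemma Hex.rot (h : Hex G c0 c1 c2 c3 c4 c5) : Hex G c1 c2 c3 c4 c5 c0 :=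
  ⟨h.a12, h.a23, h.a34, h.a45, h.a50, h.a01, h.n13, h.n14, h.n15, h.n24, h.n25,
    fun x => h.n02 x.symm, h.n35, fun x => h.n03 x.symm, fun x => h.n04 x.symm⟩

lemma Hex.rev (h : Hex G c0 c1 c2 c3 c4 c5) : Hex G c0 c5 c4 c3 c2 c1 :=
  ⟨h.a50.symm, h.a45.symm, h.a34.symm, h.a23.symm, h.a12.symm, h.a01.symm, h.n04, h.n03, h.n02,
    fun x => h.n35 x.symm, fun x => h.n25 x.symm, fun x => h.n15 x.symm, fun x => h.n24 x.symm,
    fun x => h.n14 x.symm, fun x => h.n13 x.symm⟩

lemma Hex.far2 (h : Hex G c0 c1 c2 c3 c4 c5) : c2 ∈ far G ({c0} : Set V) :=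
  mem_far_sing (fun e => h.n25 (e ▸ h.a50.symm)) h.n02

lemma Hex.far3 (h : Hex G c0 c1 c2 c3 c4 c5) : c3 ∈ far G ({c0} : Set V) :=
  mem_far_sing (fun e => h.n13 (e ▸ h.a01.symm)) h.n03

lemma Hex.far4 (h : Hex G c0 c1 c2 c3 c4 c5) : c4 ∈ far G ({c0} : Set V) := h.rev.far2

lemma Hex.q3 (h : Hex G c0 c1 c2 c3 c4 c5) : c3 ∈ QQ G ({c0} : Set V) c3 := Conn.refl h.far3

lemma Hex.q2 (h : Hex G c0 c1 c2 c3 c4 c5) : c2 ∈ QQ G ({c0} : Set V) c3 :=
  Conn.adj h.far3 h.far2 h.a23.symm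

lemma Hex.q4 (h : Hex G c0 c1 c2 c3 c4 c5) : c4 ∈ QQ G ({c0} : Set V) c3 :=
  Conn.adj h.far3 h.far4 h.a34

lemma QQ_congr {A : Set V} {b b' : V} (h : b' ∈ QQ G A b) : QQ G A b' = QQ G A b := by
  have h' : Conn G (far G A) b b' := h
  ext v
  exact ⟨fun hv => h'.trans hv, fun hv => h'.symm.trans hv⟩

lemma SS_congr {A : Set V} {b b' : V} (h : b' ∈ QQ G A b) : SS G A b' = SS G A b := by
  ext v
  rw [mem_SS, mem_SS, QQ_congr h]

lemma Piv.congr {A : Set V} {b b' t : V} (h : b' ∈ QQ G A b) (ht : Piv G A b t) :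
    Piv G A b' t := by
  unfold Piv at *
  rw [SS_congr h]
  exact ht

lemma Hex.mem_SS1 (h : Hex G c0 c1 c2 c3 c4 c5) : c1 ∈ SS G ({c0} : Set V) c3 := by
  rw [mem_SS]
  refine ⟨?_, c2, h.q2, h.a12⟩
  intro hc
  have hc' : Conn G (far G ({c0} : Set V)) c3 c1 := hc
  exact hc'.right.2 c0 rfl h.a01

lemma Hex.exists_piv (hG : IsAccessible G) (h : Hex G c0 c1 c2 c3 c4 c5) :
    ∃ t, Piv G ({c0} : Set V) c3 t :=
  NoLongInducedCycle.exists_piv hG h.far3 ⟨c1, h.mem_SS1⟩

/-- A pivot at `c0` is not adjacent to `c2`. -/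
lemma Hex.piv_not_adj (hG : IsAccessible G) (h : Hex G c0 c1 c2 c3 c4 c5) {t : V}
    (ht : Piv G ({c0} : Set V) c3 t) : ¬ G.Adj t c2 := by
  intro htc
  have h2 : Hex G c2 c3 c4 c5 c0 c1 := h.rot.rot
  obtain ⟨t2, ht2⟩ := h2.exists_piv hG
  -- `t` lies in the separator at `c2`
  have htS : t ∈ SS G ({c2} : Set V) c5 := by
    rw [mem_SS]
    refine ⟨?_, c0, h2.q4, (SS_adj_sing ht.1).symm⟩
    intro hc
    have hc' : Conn G (far G ({c2} : Set V)) c5 t := hc
    exact hc'.right.2 c2 rfl htc.symm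
  have j0 := fun {v : V} (hv : v ∈ QQ G ({c0} : Set V) c3) =>
    join (G := G) sing_conn ht.1 (a := c0) (v := v) rfl hv
  have j2 := fun {v : V} (hv : v ∈ QQ G ({c2} : Set V) c5) =>
    join (G := G) sing_conn ht2.1 (a := c2) (v := v) rfl hv
  have hc0c2 := (j2 h2.q4).symm
  have htt : t = t2 := by
    by_contra hne
    exact piv_not_mem hG h.far2 (ht.congr h.q2) ht2.2 hc0c2 (Finset.mem_erase.2 ⟨hne, htS⟩)
  subst htt
  set S0 := SS G ({c0} : Set V) c3 with hS0
  set S2 := SS G ({c2} : Set V) c5 with hS2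
  have hU := uncross hG.1 ht.2 ht2.2 (a := c0)
    (fun hh => mem_A_not_mem_SS (A := ({c0} : Set V)) rfl (Finset.mem_of_mem_erase hh))
    (fun hh => hc0c2.left (Finset.mem_coe.2 hh)) (by
      intro v hv
      by_cases hvT : v ∈ S2.erase t
      · exact Or.inl hvT
      · refine Or.inr (Conn.adj hc0c2.left (fun hh => hvT (Finset.mem_coe.1 hh)) ?_)
        exact SS_adj_sing (Finset.mem_of_mem_erase hv))
  have hT : Tight G ((S0 ∪ S2).erase t) := by
    apply hU.2
    intro v
    constructor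
    · intro hv
      rw [Finset.mem_erase, Finset.mem_union] at hv
      obtain ⟨hvt, hv⟩ := hv
      by_cases hv0 : v ∈ S0
      · exact Or.inl (Finset.mem_erase.2 ⟨hvt, hv0⟩)
      · have hv2 : v ∈ S2 := by tauto
        refine Or.inr ⟨Finset.mem_erase.2 ⟨hvt, hv2⟩, (j0 h.q2).trans (Conn.adj (j0 h.q2).right ?_ ?_)⟩
        · intro hh
          exact hv0 (Finset.mem_of_mem_erase (Finset.mem_coe.1 hh))
        · exact SS_adj_sing hv2
    · rintro (hv | hv)
      · exact Finset.mem_erase.2 ⟨(Finset.mem_erase.1 hv).1,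
          Finset.mem_union_left _ (Finset.mem_erase.1 hv).2⟩
      · exact Finset.mem_erase.2 ⟨(Finset.mem_erase.1 hv.1).1,
          Finset.mem_union_right _ (Finset.mem_erase.1 hv.1).2⟩
  -- the three vertices are together outside of the union without `t`
  set X : Set V := (((S0 ∪ S2).erase t : Finset V) : Set V)ᶜ with hX
  set Y : Set V := ((S0 ∪ S2 : Finset V) : Set V)ᶜ with hY
  have hmonoX : {w | Conn G (((S0.erase t : Finset V) : Set V)ᶜ) c0 w ∧
      Conn G (((S2.erase t : Finset V) : Set V)ᶜ) c0 w} ⊆ X := by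
    rintro w ⟨hw1, hw2⟩ hw
    have hw1' := hw1.right
    have hw2' := hw2.right
    rw [Finset.mem_coe, Finset.mem_erase, Finset.mem_union] at hw
    rcases hw.2 with hw0 | hw0
    · exact hw1' (Finset.mem_coe.2 (Finset.mem_erase.2 ⟨hw.1, hw0⟩))
    · exact hw2' (Finset.mem_coe.2 (Finset.mem_erase.2 ⟨hw.1, hw0⟩))
  have hx2 : Conn G X c0 c2 := (hU.1 c2 (j0 h.q2) hc0c2).mono hmonoX
  have hx4 : Conn G X c0 c4 := by
    refine (hU.1 c4 (j0 h.q4) (hc0c2.trans (j2 ?_))).mono hmonoX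
    exact h2.q2
  have hY0 : Y ⊆ (S0 : Set V)ᶜ := by
    intro w hw hw'
    exact hw (Finset.mem_coe.2 (Finset.mem_union_left _ (Finset.mem_coe.1 hw')))
  have hY2 : Y ⊆ (S2 : Set V)ᶜ := by
    intro w hw hw'
    exact hw (Finset.mem_coe.2 (Finset.mem_union_right _ (Finset.mem_coe.1 hw')))
  have y02 : ¬ Conn G Y c0 c2 := by
    intro hc
    exact sep' h.far3 (A := ({c0} : Set V)) rfl ((QQ_conn h.q2).trans (hc.mono hY0).symm)
  have y04 : ¬ Conn G Y c0 c4 := by
    intro hc
    exact sep' h.far3 (A := ({c0} : Set V)) rfl ((QQ_conn h.q4).trans (hc.mono hY0).symm)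
  have y24 : ¬ Conn G Y c2 c4 := by
    intro hc
    exact sep' h2.far3 (A := ({c2} : Set V)) rfl ((QQ_conn h2.q2).trans (hc.mono hY2).symm)
  have htU : t ∈ S0 ∪ S2 := Finset.mem_union_right _ htS
  have hcard := Finset.card_erase_of_mem htU
  have hpos : 0 < (S0 ∪ S2).card := Finset.card_pos.2 ⟨t, htU⟩
  have hle := numComp_le hG.1 _ (S0 ∪ S2) rfl
  rw [numComp_eq, ← hY] at hle
  have hTX : kap G X = ((S0 ∪ S2).erase t).card + numComp G ∅ := hT
  have k1 : kap G X = 1 + kap G (X \ {v | Conn G X c0 v}) := kap_split hx2.left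
  have hYX : Y ⊆ X := by
    intro w hw hw'
    exact hw (Finset.mem_coe.2 (Finset.mem_of_mem_erase (Finset.mem_coe.1 hw')))
  have hXY : ∀ w, w ∈ X → w = t ∨ w ∈ Y := by
    intro w hw
    by_cases hwt : w = t
    · exact Or.inl hwt
    · refine Or.inr ?_
      intro hw'
      exact hw (Finset.mem_coe.2 (Finset.mem_erase.2 ⟨hwt, Finset.mem_coe.1 hw'⟩))
  have htY : t ∉ Y := fun hh => hh (Finset.mem_coe.2 htU)
  have htX : t ∈ X := by
    intro hh
    exact (Finset.mem_erase.1 (Finset.mem_coe.1 hh)).1 rfl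
  have htc : Conn G X c0 t := Conn.adj hx2.left htX (SS_adj_sing ht.1)
  have k2 : kap G Y = kap G ({v | Conn G X c0 v} ∩ Y) + kap G (X \ {v | Conn G X c0 v}) := by
    rw [← kap_union]
    · congr 1
      ext v
      constructor
      · intro hv
        by_cases hcv : Conn G X c0 v
        · exact Or.inl ⟨hcv, hv⟩
        · exact Or.inr ⟨hYX hv, hcv⟩
      · rintro (hv | hv)
        · exact hv.2
        · rcases hXY v hv.1 with hvt | hvY
          · exact absurd (hvt ▸ htc) hv.2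
          · exact hvY
    · rw [Set.disjoint_left]
      intro v hv hv'
      exact hv'.2 hv.1
    · intro x hx y hy hxy
      have hx1 : Conn G X c0 x := hx.1
      exact hy.2 (hx1.trans (Conn.adj hx1.right hy.1 hxy))
  have c0Y : c0 ∈ Y := by
    rcases hXY c0 hx2.left with hh | hh
    · exact absurd (SS_adj_sing ht.1) (by rw [← hh]; exact G.irrefl)
    · exact hh
  have c2Y : c2 ∈ Y := by
    rcases hXY c2 hx2.right with hh | hh
    · exact absurd (SS_adj_sing htS) (by rw [← hh]; exact G.irrefl)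
    · exact hh
  have c4Y : c4 ∈ Y := by
    rcases hXY c4 hx4.right with hh | hh
    · exact absurd (SS_adj_sing ht.1) (by rw [← hh]; exact h.n04)
    · exact hh
  have hsubY : {v | Conn G X c0 v} ∩ Y ⊆ Y := Set.inter_subset_right
  have k3 : 3 ≤ kap G ({v | Conn G X c0 v} ∩ Y) := by
    refine three_le_kap (a := c0) (b := c2) (c := c4) ⟨Conn.refl hx2.left, c0Y⟩ ⟨hx2, c2Y⟩
      ⟨hx4, c4Y⟩ ?_ ?_ ?_
    · exact fun hh => y02 (hh.mono hsubY)
    · exact fun hh => y04 (hh.mono hsubY)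
    · exact fun hh => y24 (hh.mono hsubY)
  omega

/-- Every vertex with two nonadjacent neighbours has two nonadjacent neighbours on every
induced hexagon. -/
def Rich (G : SimpleGraph V) : Prop :=
  ∀ c0 c1 c2 c3 c4 c5 v : V, Hex G c0 c1 c2 c3 c4 c5 →
    (∃ x y, x ≠ y ∧ G.Adj v x ∧ G.Adj v y ∧ ¬ G.Adj x y) →
    (G.Adj v c0 ∧ G.Adj v c2) ∨ (G.Adj v c0 ∧ G.Adj v c3) ∨ (G.Adj v c0 ∧ G.Adj v c4) ∨
    (G.Adj v c1 ∧ G.Adj v c3) ∨ (G.Adj v c1 ∧ G.Adj v c4) ∨ (G.Adj v c1 ∧ G.Adj v c5) ∨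
    (G.Adj v c2 ∧ G.Adj v c4) ∨ (G.Adj v c2 ∧ G.Adj v c5) ∨ (G.Adj v c3 ∧ G.Adj v c5)

lemma exists_good (hG : IsAccessible G) (hR : Rich G) {c1 c2 c3 c4 c5 : V} :
    ∀ (n : ℕ) (c0 : V) (Z : Finset V), Hex G c0 c1 c2 c3 c4 c5 → Tight G Z →
      Conn G ((Z : Set V)ᶜ) c0 c3 →
      {v | Conn G (((insert c0 Z : Finset V) : Set V)ᶜ) c3 v}.ncard = n →
      ∃ c0', Hex G c0' c1 c2 c3 c4 c5 ∧ ∃ t, Piv G ({c0'} : Set V) c3 t ∧ G.Adj t c3 := by
  classical
  intro n
  induction n using Nat.strong_induction_on with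
  | h n ih =>
  intro c0 Z h hZ hc hn
  obtain ⟨t, ht⟩ := h.exists_piv hG
  by_cases htc : G.Adj t c3
  · exact ⟨c0, h, t, ht, htc⟩
  have n2 : ¬ G.Adj t c2 := h.piv_not_adj hG ht
  have n4 : ¬ G.Adj t c4 := h.rev.piv_not_adj hG ht
  have ht0 : G.Adj c0 t := SS_adj_sing ht.1
  obtain ⟨htQ, q, hq, htq⟩ := mem_SS.1 ht.1
  have hq' : Conn G (far G ({c0} : Set V)) c3 q := hq
  have hrich := hR c0 c1 c2 c3 c4 c5 t h ⟨c0, q, (fun e => hq'.right.1 (e ▸ rfl)), ht0.symm, htq,
    hq'.right.2 c0 rfl⟩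
  have ht15 : G.Adj t c1 ∧ G.Adj t c5 := by tauto
  have hex : Hex G t c1 c2 c3 c4 c5 :=
    ⟨ht15.1, h.a12, h.a23, h.a34, h.a45, ht15.2.symm, n2, htc, n4, h.n13, h.n14, h.n15, h.n24,
      h.n25, h.n35⟩
  have htZ : t ∉ Z := piv_not_mem hG h.far3 ht hZ hc
  have j0 := fun {v : V} (hv : v ∈ QQ G ({c0} : Set V) c3) =>
    join (G := G) sing_conn ht.1 (a := c0) (v := v) rfl hv
  set S0 := SS G ({c0} : Set V) c3 with hS0
  have hU := uncross hG.1 ht.2 hZ (a := c0)
    (fun hh => mem_A_not_mem_SS (A := ({c0} : Set V)) rfl (Finset.mem_of_mem_erase hh))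
    (fun hh => hc.left (Finset.mem_coe.2 hh)) (by
      intro v hv
      by_cases hvT : v ∈ Z
      · exact Or.inl hvT
      · refine Or.inr (Conn.adj hc.left (fun hh => hvT (Finset.mem_coe.1 hh)) ?_)
        exact SS_adj_sing (Finset.mem_of_mem_erase hv))
  set Z' : Finset V := S0.erase t ∪
    Z.filter (fun v => Conn G (((S0.erase t : Finset V) : Set V)ᶜ) c0 v) with hZ'
  have hmemZ' : ∀ v, v ∈ Z' ↔ v ∈ S0.erase t ∨
      (v ∈ Z ∧ Conn G (((S0.erase t : Finset V) : Set V)ᶜ) c0 v) := by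
    intro v
    rw [hZ', Finset.mem_union, Finset.mem_filter]
  have hZ't : Tight G Z' := hU.2 Z' hmemZ'
  set M : Set V := {w | Conn G (((S0.erase t : Finset V) : Set V)ᶜ) c0 w ∧
      Conn G ((Z : Set V)ᶜ) c0 w} with hM
  have hMZ' : M ⊆ ((Z' : Finset V) : Set V)ᶜ := by
    rintro w ⟨hw1, hw2⟩ hw
    rw [Finset.mem_coe, hmemZ'] at hw
    rcases hw with hw | hw
    · exact hw1.right (Finset.mem_coe.2 hw)
    · exact hw2.right (Finset.mem_coe.2 hw.1)
  have hMc : Conn G M c0 c3 := hU.1 c3 (j0 h.q3) hc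
  have htT1 : t ∈ (((S0.erase t : Finset V) : Set V)ᶜ) := by
    intro hh
    exact (Finset.mem_erase.1 (Finset.mem_coe.1 hh)).1 rfl
  have htM : t ∈ M := ⟨Conn.adj (j0 h.q3).left htT1 ht0,
    Conn.adj hc.left (fun hh => htZ (Finset.mem_coe.1 hh)) ht0⟩
  have htc3 : Conn G (((Z' : Finset V) : Set V)ᶜ) t c3 :=
    ((Conn.adj hMc.left htM ht0).symm.trans hMc).mono hMZ'
  refine ih _ ?_ t Z' hex hZ't htc3 rfl
  rw [← hn]
  -- the potential decreases
  have hc3ne : c3 ≠ c0 := h.far3.1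
  have hc3D : Conn G (((insert c0 Z : Finset V) : Set V)ᶜ) c3 c3 := by
    apply Conn.refl
    intro hh
    rw [Finset.mem_coe, Finset.mem_insert] at hh
    rcases hh with hh | hh
    · exact hc3ne hh
    · exact hc.right (Finset.mem_coe.2 hh)
  have hQ0 : ∀ u, u ∈ QQ G ({c0} : Set V) c3 → u ≠ c0 := by
    intro u hu e
    have hu' : Conn G (far G ({c0} : Set V)) c3 u := hu
    exact hu'.right.1 e
  have step : ∀ u w, u ∈ QQ G ({c0} : Set V) c3 → G.Adj u w → w ∉ S0 →
      w ∈ QQ G ({c0} : Set V) c3 := by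
    intro u w hu huw hw
    by_contra hcon
    exact hw (mem_SS.2 ⟨hcon, u, hu, huw.symm⟩)
  apply Set.ncard_lt_ncard _ (Set.toFinite _)
  rw [Set.ssubset_iff_subset_ne]
  constructor
  · intro v hv
    have hv' : Conn G (((insert t Z' : Finset V) : Set V)ᶜ) c3 v := hv
    have key : v ∈ {u | u ∈ M ∧ u ∈ QQ G ({c0} : Set V) c3 ∧
        Conn G (((insert c0 Z : Finset V) : Set V)ᶜ) c3 u} := by
      refine hv'.closed ⟨hMc.right, h.q3, hc3D⟩ ?_
      rintro u w ⟨huM, huQ, huD⟩ hu hw huw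
      have hw1 : w ≠ t ∧ w ∉ Z' := by
        constructor
        · intro e
          exact hw (Finset.mem_coe.2 (Finset.mem_insert.2 (Or.inl e)))
        · intro e
          exact hw (Finset.mem_coe.2 (Finset.mem_insert.2 (Or.inr e)))
      have hw2 := (hmemZ' w).not.1 hw1.2
      push Not at hw2
      have hw3 : Conn G (((S0.erase t : Finset V) : Set V)ᶜ) c0 w :=
        huM.1.trans (Conn.adj huM.1.right (fun hh => hw2.1 (Finset.mem_coe.1 hh)) huw)
      have hw4 : w ∉ Z := fun hh => hw2.2 hh hw3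
      have hw5 : w ∉ S0 := fun hh => hw2.1 (Finset.mem_erase.2 ⟨hw1.1, hh⟩)
      have hw6 := step u w huQ huw hw5
      refine ⟨⟨hw3, huM.2.trans (Conn.adj huM.2.right (fun hh => hw4 (Finset.mem_coe.1 hh)) huw)⟩,
        hw6, huD.trans (Conn.adj huD.right ?_ huw)⟩
      intro hh
      rw [Finset.mem_coe, Finset.mem_insert] at hh
      rcases hh with hh | hh
      · exact hQ0 w hw6 hh
      · exact hw4 hh
    exact key.2.2
  · intro heq
    have htD' : ¬ Conn G (((insert t Z' : Finset V) : Set V)ᶜ) c3 t := by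
      intro hh
      exact hh.right (Finset.mem_coe.2 (Finset.mem_insert_self _ _))
    have htD : ¬ Conn G (((insert c0 Z : Finset V) : Set V)ᶜ) c3 t := by
      intro hh
      have : t ∈ {v | Conn G (((insert c0 Z : Finset V) : Set V)ᶜ) c3 v} := hh
      rw [← heq] at this
      exact htD' this
    have key : c0 ∈ {u | u ∈ QQ G ({c0} : Set V) c3 ∧
        Conn G (((insert c0 Z : Finset V) : Set V)ᶜ) c3 u} := by
      refine hMc.symm.closed ⟨h.q3, hc3D⟩ ?_
      rintro u w ⟨huQ, huD⟩ hu hw huw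
      have hwZ : w ∉ Z := fun hh => hw.2.right (Finset.mem_coe.2 hh)
      have hwT1 : w ∉ S0.erase t := fun hh => hw.1.right (Finset.mem_coe.2 hh)
      have hwins : w ≠ c0 → w ∈ (((insert c0 Z : Finset V) : Set V)ᶜ) := by
        intro hwc hh
        rw [Finset.mem_coe, Finset.mem_insert] at hh
        rcases hh with hh | hh
        · exact hwc hh
        · exact hwZ hh
      by_cases hwt : w = t
      · exfalso
        subst hwt
        exact htD (huD.trans (Conn.adj huD.right (hwins (fun e => G.irrefl (e ▸ ht0))) huw))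
      · have hwS : w ∉ S0 := fun hh => hwT1 (Finset.mem_erase.2 ⟨hwt, hh⟩)
        have hwQ := step u w huQ huw hwS
        exact ⟨hwQ, huD.trans (Conn.adj huD.right (hwins (hQ0 w hwQ)) huw)⟩
    exact hQ0 c0 key.1 rfl

lemma no_hex (hG : IsAccessible G) (hR : Rich G) (h : Hex G c0 c1 c2 c3 c4 c5) : False := by
  have tight0 : Tight G (∅ : Finset V) := by
    unfold Tight
    simp
  have conn0 : ∀ {d0 d1 d2 d3 d4 d5 : V}, Hex G d0 d1 d2 d3 d4 d5 →
      Conn G (((∅ : Finset V) : Set V)ᶜ) d0 d3 := by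
    intro d0 d1 d2 d3 d4 d5 hd
    have hall : ∀ v : V, v ∈ (((∅ : Finset V) : Set V)ᶜ) := by
      intro v
      simp
    exact ((Conn.adj (hall _) (hall _) hd.a01).trans (Conn.adj (hall _) (hall _) hd.a12)).trans
      (Conn.adj (hall _) (hall _) hd.a23)
  obtain ⟨b1, hb1, y, hy, hyc⟩ := exists_good hG hR _ c1 ∅ h.rot tight0 (conn0 h.rot) rfl
  obtain ⟨b2, hb2, z, hz, hzc⟩ := exists_good hG hR _ c2 ∅ hb1.rot tight0 (conn0 hb1.rot) rfl
  -- `hb2 : Hex b2 c3 c4 c5 c0 b1`
  have H1 : Hex G b1 b2 c3 c4 c5 c0 := hb2.rot.rot.rot.rot.rot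
  have y5 : ¬ G.Adj y c5 := H1.rev.piv_not_adj hG hy
  have hyz : y ≠ z := fun e => y5 (e ▸ hzc)
  have hA : ∀ x ∈ ({b1, b2} : Set V), ∀ w ∈ ({b1, b2} : Set V), Conn G ({b1, b2} : Set V) x w := by
    have m1 : b1 ∈ ({b1, b2} : Set V) := Or.inl rfl
    have m2 : b2 ∈ ({b1, b2} : Set V) := Or.inr rfl
    rintro x (rfl | rfl) w (rfl | rfl)
    · exact Conn.refl m1
    · exact Conn.adj m1 m2 H1.a01
    · exact (Conn.adj m1 m2 H1.a01).symm
    · exact Conn.refl m2
  have f4 : c4 ∈ far G ({b1, b2} : Set V) := by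
    constructor
    · rintro (e | e)
      · exact H1.far3.1 e
      · exact hb2.far2.1 e
    · rintro x (rfl | rfl)
      · exact H1.n03
      · exact hb2.n02
  have f5 : c5 ∈ far G ({b1, b2} : Set V) := by
    constructor
    · rintro (e | e)
      · exact H1.far4.1 e
      · exact hb2.far3.1 e
    · rintro x (rfl | rfl)
      · exact H1.n04
      · exact hb2.n03
  have q5 : c5 ∈ QQ G ({b1, b2} : Set V) c4 := Conn.adj f4 f5 hb2.a23
  have yS : y ∈ SS G ({b1, b2} : Set V) c4 := by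
    rw [mem_SS]
    refine ⟨?_, c4, Conn.refl f4, hyc⟩
    intro hh
    have hh' : Conn G (far G ({b1, b2} : Set V)) c4 y := hh
    exact hh'.right.2 b1 (Or.inl rfl) (SS_adj_sing hy.1)
  have zS : z ∈ SS G ({b1, b2} : Set V) c4 := by
    rw [mem_SS]
    refine ⟨?_, c5, q5, hzc⟩
    intro hh
    have hh' : Conn G (far G ({b1, b2} : Set V)) c4 z := hh
    exact hh'.right.2 b2 (Or.inr rfl) (SS_adj_sing hz.1)
  obtain ⟨t, ht⟩ := exists_piv hG f4 ⟨y, yS⟩
  have j1 := join hA ht.1 (a := b1) (v := c4) (Or.inl rfl) (Conn.refl f4)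
  have j2 := join hA ht.1 (a := b2) (v := c5) (Or.inr rfl) q5
  have e1 : y = t := by
    by_contra hne
    exact piv_not_mem hG H1.far3 hy ht.2 j1 (Finset.mem_erase.2 ⟨hne, yS⟩)
  have e2 : z = t := by
    by_contra hne
    exact piv_not_mem hG hb2.far3 hz ht.2 j2 (Finset.mem_erase.2 ⟨hne, zS⟩)
  exact hyz (e1.trans e2.symm)

/-! ### Completing the neighbourhood of a vertex -/

/-- The graph obtained by making the neighbourhood of `v` complete. -/
def cpl (G : SimpleGraph V) (v : V) : SimpleGraph V where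
  Adj x y := G.Adj x y ∨ (x ≠ y ∧ G.Adj v x ∧ G.Adj v y)
  symm := ⟨by
    rintro x y (h | ⟨h1, h2, h3⟩)
    · exact Or.inl h.symm
    · exact Or.inr ⟨h1.symm, h3, h2⟩⟩
  loopless := ⟨by
    rintro x (h | ⟨h1, _, _⟩)
    · exact G.irrefl h
    · exact h1 rfl⟩

lemma conn_cpl {v : V} {X : Set V} (hv : v ∈ X) {a b : V} :
    Conn (cpl G v) X a b ↔ Conn G X a b := by
  constructor
  · intro h
    refine h.closed (D := {u | Conn G X a u}) (Conn.refl h.left) ?_
    rintro u w hu huX hwX (huw | ⟨_, hvu, hvw⟩)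
    · exact Conn.trans hu (Conn.adj huX hwX huw)
    · exact Conn.trans hu ((Conn.adj huX hv hvu.symm).trans (Conn.adj hv hwX hvw))
  · intro h
    refine h.closed (D := {u | Conn (cpl G v) X a u}) (Conn.refl h.left) ?_
    intro u w hu huX hwX huw
    exact Conn.trans hu (Conn.adj huX hwX (Or.inl huw))

lemma kap_cpl {v : V} {X : Set V} (hv : v ∈ X) : kap (cpl G v) X = kap G X := by
  unfold kap
  refine Nat.card_congr (Quot.congrRight ?_)
  rintro ⟨a, ha⟩ ⟨b, hb⟩
  have := conn_cpl (G := G) hv (a := a) (b := b)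
  constructor
  · intro h
    exact (this.1 ⟨ha, hb, h⟩).2.2
  · intro h
    exact (this.2 ⟨ha, hb, h⟩).2.2

lemma numComp_cpl {v : V} {T : Finset V} (hv : v ∉ T) : numComp (cpl G v) T = numComp G T :=
  kap_cpl (by simpa using hv)

lemma not_mem_of_isCutSet_cpl {v : V} {T : Finset V} (hT : IsCutSet (cpl G v) T) : v ∉ T := by
  intro hv
  have h1 := hT v hv
  rw [numComp_eq, numComp_eq] at h1
  have e : (((T.erase v : Finset V) : Set V)ᶜ) = insert v ((T : Set V)ᶜ) := by
    ext w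
    simp only [Finset.coe_erase, Set.mem_compl_iff, Set.mem_sdiff, Finset.mem_coe,
      Set.mem_singleton_iff, Set.mem_insert_iff]
    tauto
  rw [e] at h1
  have h2 : kap (cpl G v) ((T : Set V)ᶜ) ≤ kap (cpl G v) (insert v ((T : Set V)ᶜ)) := by
    apply le_kap_insert
    · intro h
      exact h (Finset.mem_coe.2 hv)
    · intro x _ y _ hx hy hxy
      have hx' : G.Adj v x := by
        rcases hx with hx | hx
        · exact hx
        · exact hx.2.2
      have hy' : G.Adj v y := by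
        rcases hy with hy | hy
        · exact hy
        · exact hy.2.2
      exact Or.inr ⟨hxy, hx', hy'⟩
  omega

lemma isCutSet_cpl {v : V} {T : Finset V} :
    IsCutSet (cpl G v) T ↔ v ∉ T ∧ IsCutSet G T := by
  constructor
  · intro h
    have hv := not_mem_of_isCutSet_cpl h
    refine ⟨hv, fun i hi => ?_⟩
    have h1 := h i hi
    rwa [numComp_cpl hv, numComp_cpl (fun hh => hv (Finset.mem_of_mem_erase hh))] at h1
  · rintro ⟨hv, h⟩ i hi
    rw [numComp_cpl hv, numComp_cpl (fun hh => hv (Finset.mem_of_mem_erase hh))]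
    exact h i hi

lemma isAccessible_cpl {v : V} (hG : IsAccessible G) : IsAccessible (cpl G v) := by
  constructor
  · intro T hT
    obtain ⟨hv, hT'⟩ := isCutSet_cpl.1 hT
    rw [numComp_cpl hv, numComp_cpl (Finset.notMem_empty v)]
    exact hG.1 T hT'
  · intro T hT hne
    obtain ⟨hv, hT'⟩ := isCutSet_cpl.1 hT
    obtain ⟨t, ht, hc⟩ := hG.2 T hT' hne
    exact ⟨t, ht, isCutSet_cpl.2 ⟨fun hh => hv (Finset.mem_of_mem_erase hh), hc⟩⟩

/-! ### Induced cycles -/

/-- `c 0, …, c (k - 1)` is an induced cycle of length `k`. -/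
def Cyc (G : SimpleGraph V) (k : ℕ) (c : ℕ → V) : Prop :=
  ∀ i j, i < j → j < k → c i ≠ c j ∧ (G.Adj (c i) (c j) ↔ (j = i + 1 ∨ (i = 0 ∧ j + 1 = k)))

lemma Cyc.hex {c : ℕ → V} (h : Cyc G 6 c) : Hex G (c 0) (c 1) (c 2) (c 3) (c 4) (c 5) where
  a01 := (h 0 1 (by omega) (by omega)).2.2 (by omega)
  a12 := (h 1 2 (by omega) (by omega)).2.2 (by omega)
  a23 := (h 2 3 (by omega) (by omega)).2.2 (by omega)
  a34 := (h 3 4 (by omega) (by omega)).2.2 (by omega)
  a45 := (h 4 5 (by omega) (by omega)).2.2 (by omega)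
  a50 := ((h 0 5 (by omega) (by omega)).2.2 (by omega)).symm
  n02 := (h 0 2 (by omega) (by omega)).2.not.2 (by omega)
  n03 := (h 0 3 (by omega) (by omega)).2.not.2 (by omega)
  n04 := (h 0 4 (by omega) (by omega)).2.not.2 (by omega)
  n13 := (h 1 3 (by omega) (by omega)).2.not.2 (by omega)
  n14 := (h 1 4 (by omega) (by omega)).2.not.2 (by omega)
  n15 := (h 1 5 (by omega) (by omega)).2.not.2 (by omega)
  n24 := (h 2 4 (by omega) (by omega)).2.not.2 (by omega)
  n25 := (h 2 5 (by omega) (by omega)).2.not.2 (by omega)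
  n35 := (h 3 5 (by omega) (by omega)).2.not.2 (by omega)

/-- Six vertices as a function on the natural numbers. -/
def six (c0 c1 c2 c3 c4 c5 : V) : ℕ → V := fun i =>
  if i = 0 then c0 else if i = 1 then c1 else if i = 2 then c2 else if i = 3 then c3 else
    if i = 4 then c4 else c5

lemma Hex.cyc (h : Hex G c0 c1 c2 c3 c4 c5) : Cyc G 6 (six c0 c1 c2 c3 c4 c5) := by
  have e02 : c0 ≠ c2 := fun e => h.far2.1 e.symm
  have e03 : c0 ≠ c3 := fun e => h.far3.1 e.symm
  have e04 : c0 ≠ c4 := fun e => h.far4.1 e.symm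
  have e13 : c1 ≠ c3 := fun e => h.rot.far2.1 e.symm
  have e14 : c1 ≠ c4 := fun e => h.rot.far3.1 e.symm
  have e15 : c1 ≠ c5 := fun e => h.rot.far4.1 e.symm
  have e24 : c2 ≠ c4 := fun e => h.rot.rot.far2.1 e.symm
  have e25 : c2 ≠ c5 := fun e => h.rot.rot.far3.1 e.symm
  have e35 : c3 ≠ c5 := fun e => h.rot.rot.rot.far2.1 e.symm
  intro i j hij hj
  interval_cases j <;> interval_cases i <;>
    simp [six, h.a01, h.a12, h.a23, h.a34, h.a45, h.a50.symm, h.n02, h.n03, h.n04, h.n13, h.n14,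
      h.n15, h.n24, h.n25, h.n35, h.a01.ne, h.a12.ne, h.a23.ne, h.a34.ne, h.a45.ne, h.a50.ne.symm,
      e02, e03, e04, e13, e14, e15, e24, e25, e35]

lemma ncard_cpl_lt {v x y : V} (hxy : x ≠ y) (hx : G.Adj v x) (hy : G.Adj v y)
    (h : ¬ G.Adj x y) :
    {p : V × V | ¬ (cpl G v).Adj p.1 p.2}.ncard < {p : V × V | ¬ G.Adj p.1 p.2}.ncard := by
  apply Set.ncard_lt_ncard _ (Set.toFinite _)
  rw [Set.ssubset_iff_subset_ne]
  constructor
  · intro p hp hp'
    exact hp (Or.inl hp')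
  · intro e
    have h1 : (x, y) ∈ {p : V × V | ¬ G.Adj p.1 p.2} := h
    rw [← e] at h1
    exact h1 (Or.inr ⟨hxy, hx, hy⟩)

lemma no_cyc : ∀ (n : ℕ) (G : SimpleGraph V), IsAccessible G →
    {p : V × V | ¬ G.Adj p.1 p.2}.ncard = n → ∀ (k : ℕ) (c : ℕ → V), 6 ≤ k → ¬ Cyc G k c := by
  intro n
  induction n using Nat.strong_induction_on with
  | h n ih =>
  intro G hG hn k c hk hc
  have IH : ∀ v x y : V, x ≠ y → G.Adj v x → G.Adj v y → ¬ G.Adj x y →
      ∀ (k : ℕ) (c : ℕ → V), 6 ≤ k → ¬ Cyc (cpl G v) k c := by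
    intro v x y hxy hx hy hn'
    exact ih _ (by rw [← hn]; exact ncard_cpl_lt hxy hx hy hn') _ (isAccessible_cpl hG) rfl
  by_cases hk7 : 7 ≤ k
  · obtain ⟨m, rfl⟩ : ∃ m, k = m + 1 := ⟨k - 1, by omega⟩
    have h0 := hc 0 m (by omega) (by omega)
    have h1 := hc (m - 1) m (by omega) (by omega)
    have h2 := hc 0 (m - 1) (by omega) (by omega)
    refine IH (c m) (c 0) (c (m - 1)) h2.1 (h0.2.2 (by omega)).symm (h1.2.2 (by omega)).symm
      (h2.2.not.2 (by omega)) m c (by omega) ?_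
    intro i j hij hj
    have g1 := hc i j hij (by omega)
    have g2 := hc i m (by omega) (by omega)
    have g3 := hc j m (by omega) (by omega)
    refine ⟨g1.1, ?_⟩
    have e2 : G.Adj (c m) (c i) ↔ (m = i + 1 ∨ (i = 0 ∧ m + 1 = m + 1)) :=
      ⟨fun h => g2.2.1 h.symm, fun h => (g2.2.2 h).symm⟩
    have e3 : G.Adj (c m) (c j) ↔ (m = j + 1 ∨ (j = 0 ∧ m + 1 = m + 1)) :=
      ⟨fun h => g3.2.1 h.symm, fun h => (g3.2.2 h).symm⟩
    have e1 : (cpl G (c m)).Adj (c i) (c j) ↔
        (G.Adj (c i) (c j) ∨ (c i ≠ c j ∧ G.Adj (c m) (c i) ∧ G.Adj (c m) (c j))) := Iff.rfl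
    rw [e1, g1.2, e2, e3]
    have g4 := g1.1
    constructor
    · rintro (h | ⟨_, h3, h4⟩) <;> omega
    · intro h
      rcases h with h | h
      · exact Or.inl (Or.inl h)
      · exact Or.inr ⟨g4, by omega, by omega⟩
  · obtain rfl : k = 6 := by omega
    have hR : Rich G := by
      intro c0 c1 c2 c3 c4 c5 v hex hns
      obtain ⟨x, y, hxy, hx, hy, hn'⟩ := hns
      by_contra hcon
      push Not at hcon
      obtain ⟨p02, p03, p04, p13, p14, p15, p24, p25, p35⟩ := hcon
      have hex' : Hex (cpl G v) c0 c1 c2 c3 c4 c5 := by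
        refine ⟨Or.inl hex.a01, Or.inl hex.a12, Or.inl hex.a23, Or.inl hex.a34, Or.inl hex.a45,
          Or.inl hex.a50, ?_, ?_, ?_, ?_, ?_, ?_, ?_, ?_, ?_⟩
        · rintro (h | ⟨_, h1, h2⟩)
          exacts [hex.n02 h, p02 h1 h2]
        · rintro (h | ⟨_, h1, h2⟩)
          exacts [hex.n03 h, p03 h1 h2]
        · rintro (h | ⟨_, h1, h2⟩)
          exacts [hex.n04 h, p04 h1 h2]
        · rintro (h | ⟨_, h1, h2⟩)
          exacts [hex.n13 h, p13 h1 h2]
        · rintro (h | ⟨_, h1, h2⟩)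
          exacts [hex.n14 h, p14 h1 h2]
        · rintro (h | ⟨_, h1, h2⟩)
          exacts [hex.n15 h, p15 h1 h2]
        · rintro (h | ⟨_, h1, h2⟩)
          exacts [hex.n24 h, p24 h1 h2]
        · rintro (h | ⟨_, h1, h2⟩)
          exacts [hex.n25 h, p25 h1 h2]
        · rintro (h | ⟨_, h1, h2⟩)
          exacts [hex.n35 h, p35 h1 h2]
      exact IH v x y hxy hx hy hn' 6 _ le_rfl hex'.cyc
    exact no_hex hG hR hc.hex

lemma cyc_of_embedding {k : ℕ} (hk : 6 ≤ k) (f : cycleGraph k ↪g G) : ∃ c : ℕ → V, Cyc G k c := by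
  refine ⟨fun i => if h : i < k then f ⟨i, h⟩ else f ⟨0, by omega⟩, ?_⟩
  intro i j hij hj
  have hi : i < k := by omega
  simp only [hi, hj, dif_pos]
  constructor
  · intro e
    have := f.injective e
    rw [Fin.mk.injEq] at this
    omega
  · rw [f.map_adj_iff, cycleGraph_adj']
    have h1 : ((⟨j, hj⟩ : Fin k) - ⟨i, hi⟩).val = j - i := by
      rw [Fin.coe_sub_iff_le.2 (by rw [Fin.mk_le_mk]; omega)]
    have h2 : ((⟨i, hi⟩ : Fin k) - ⟨j, hj⟩).val = k + i - j := by
      rw [Fin.coe_sub_iff_lt.2 (by rw [Fin.mk_lt_mk]; omega)]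
    rw [h1, h2]
    omega

end Unmixed

/-- An accessible graph has no induced cycle of length at least six. -/
theorem result {V : Type u} [Fintype V] [DecidableEq V] (G : SimpleGraph V)
    (hG : IsAccessible G) (k : ℕ) (hk : 6 ≤ k) : IsEmpty (cycleGraph k ↪g G) := by
  constructor
  intro f
  obtain ⟨c, hc⟩ := cyc_of_embedding hk f
  exact no_cyc _ G hG rfl k c hk hc

end Pool.Agent.Results.MP_12e671_al.NoLongInducedCycle
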